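import Pool.Agent.Helper18.SU.Goals3

/-! # NUM3: the numbers -/

set_option autoImplicit false

namespace Pool.Agent.Helper4.SU

open Pool.Agent.Helper18.SU

theorem NUM3 : NUM3_stmt := by
  intro n hn m hm
  have hnR : (10 : ℝ) ^ 30 ≤ n := by exact_mod_cast hn
  have hn0 : (0 : ℝ) < n := lt_of_lt_of_le (by positivity) hnR
  obtain ⟨t, ht1, htn⟩ : ∃ t : ℝ, 1 ≤ t ∧ (n : ℝ) = 10 ^ 30 * t ^ 14 := by
    refine ⟨((n : ℝ) / 10 ^ 30) ^ (((14 : ℕ) : ℝ)⁻¹), ?_, ?_⟩
    · apply Real.one_le_rpow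
      · rw [le_div_iff₀ (by positivity), one_mul]
        exact hnR
      · positivity
    · rw [Real.rpow_inv_natCast_pow (by positivity) (by norm_num)]
      field_simp
  have ht0 : 0 < t := by linarith
  have htp : ∀ k : ℕ, 1 ≤ t ^ k := fun k => one_le_pow₀ ht1
  have hs : Real.sqrt n = 10 ^ 15 * t ^ 7 := by
    rw [htn, show (10 : ℝ) ^ 30 * t ^ 14 = (10 ^ 15 * t ^ 7) ^ 2 by ring]
    exact Real.sqrt_sq (by positivity)
  -- the logarithm
  have hL0 : 0 ≤ Real.log n := Real.log_nonneg (le_trans (by norm_num) hnR)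
  have hL : Real.log n ≤ 69.315 + 14 * (t - 1) := by
    rw [htn, Real.log_mul (by positivity) (by positivity), Real.log_pow t 14]
    have h1 : Real.log ((10 : ℝ) ^ 30) ≤ 100 * Real.log 2 := by
      have h2 := Real.log_le_log (by positivity) (show (10 : ℝ) ^ 30 ≤ 2 ^ 100 by norm_num)
      rw [Real.log_pow 2 100] at h2
      simpa using h2
    have h3 := Real.log_two_lt_d9
    have h4 := Real.log_le_sub_one_of_pos ht0
    have h5 : 100 * Real.log 2 ≤ 69.315 := by linarith
    have h6 : ((14 : ℕ) : ℝ) * Real.log t ≤ 14 * (t - 1) := by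
      push_cast
      linarith
    exact add_le_add (h1.trans h5) h6
  have hE : erf n n ≤ 578520000000000000 * t ^ 8 + 281910 * t ^ 8 := by
    unfold erf
    rw [hs]
    have h1 : 8 * (10 ^ 15 * t ^ 7) * (Real.log n + 3) ≤ 8 * (10 ^ 15 * t ^ 7) * (72.315 * t) := by
      apply mul_le_mul_of_nonneg_left _ (by positivity)
      linarith
    have h2 : 54 * Real.log n * (Real.log n + 6) ≤ 54 * (69.315 * t) * (75.315 * t) := by
      apply mul_le_mul _ (by linarith) (by linarith) (by positivity)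
      linarith
    have h3 : t ^ 2 ≤ t ^ 8 := pow_le_pow_right₀ ht1 (by norm_num)
    nlinarith [h1, h2, h3]
  have hE0 : 0 ≤ erf n n := by
    unfold erf
    positivity
  have hD : ((⌈erf n n⌉₊ : ℝ) + 2) ≤ 578530000000000000 * t ^ 8 := by
    have h1 := Nat.ceil_lt_add_one hE0
    have h2 := htp 8
    linarith
  -- the number `u`
  set u := n / 129930000 with hu
  have hu1 : (n : ℝ) < 129930000 * ((u : ℝ) + 1) := by
    have h1 : n < 129930000 * (u + 1) := by omega
    exact_mod_cast h1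
  have hul : 7696400000000000000000 * t ^ 14 ≤ (u : ℝ) := by
    have h2 := htp 14
    rw [htn] at hu1
    linarith
  have hmR : (m : ℝ) * (100 * (u : ℝ)) ≤ n * ((⌈erf n n⌉₊ : ℝ) + 2) := by exact_mod_cast hm
  have hm0 : (0 : ℝ) ≤ m := Nat.cast_nonneg m
  have hml : (m : ℝ) ≤ 751700000000000000000000 * t ^ 8 := by
    have h1 : (m : ℝ) * (100 * (7696400000000000000000 * t ^ 14)) ≤
        (10 ^ 30 * t ^ 14) * (578530000000000000 * t ^ 8) := by
      calc _ ≤ (m : ℝ) * (100 * (u : ℝ)) := by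
            apply mul_le_mul_of_nonneg_left _ hm0
            linarith
        _ ≤ n * ((⌈erf n n⌉₊ : ℝ) + 2) := hmR
        _ ≤ n * (578530000000000000 * t ^ 8) := mul_le_mul_of_nonneg_left hD hn0.le
        _ = _ := by rw [htn]
    have h2 : ((m : ℝ) * (100 * 7696400000000000000000)) * t ^ 14 ≤
        (10 ^ 30 * (578530000000000000 * t ^ 8)) * t ^ 14 := by
      linarith
    have h3 := le_of_mul_le_mul_right h2 (by positivity : (0 : ℝ) < t ^ 14)
    have h4 := htp 8
    linarith
  have h814 : t ^ 8 ≤ t ^ 14 := pow_le_pow_right₀ ht1 (by norm_num)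
  have h914 : t ^ 9 ≤ t ^ 14 := pow_le_pow_right₀ ht1 (by norm_num)
  have h1 := htp 14
  have h8 := htp 8
  have hC0 : (C0 : ℝ) = 10000000 := by
    unfold C0
    norm_num
  refine ⟨?_, ?_, ?_, ?_⟩
  · have : (m : ℝ) ≤ 100 * (u : ℝ) := by linarith
    exact_mod_cast this
  · have : 10 * (C0 : ℝ) ≤ u := by
      rw [hC0]
      linarith
    exact_mod_cast this
  · have hg0 : (0 : ℝ) ≤ 146.1 * t := by positivity
    refine ⟨⌈146.1 * t⌉₊, ?_, ?_, ?_⟩
    · exact Nat.one_le_iff_ne_zero.2 (Nat.pos_iff_ne_zero.1 (Nat.ceil_pos.2 (by positivity)))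
    · have h2 : (2 * (n : ℝ)) ≤ (⌈146.1 * t⌉₊ : ℝ) ^ 14 := by
        calc 2 * (n : ℝ) = 2 * 10 ^ 30 * t ^ 14 := by rw [htn]; ring
          _ ≤ 146.1 ^ 14 * t ^ 14 := by
            apply mul_le_mul_of_nonneg_right _ (by positivity)
            norm_num
          _ = (146.1 * t) ^ 14 := by ring
          _ ≤ _ := pow_le_pow_left₀ hg0 (Nat.le_ceil _) 14
      exact_mod_cast h2
    · have h2 : ((⌈146.1 * t⌉₊ : ℝ) + 1) ≤ 148.1 * t := by
        have := Nat.ceil_lt_add_one hg0
        linarith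
      have h3 : (4 : ℝ) * (3 * m + C0) ≤ 9020500000000000000000000 * t ^ 8 := by
        rw [hC0]
        linarith
      have h4 : ((⌈146.1 * t⌉₊ : ℝ) + 1) * (4 * (3 * m + C0)) ≤ 181800 * (u : ℝ) := by
        calc _ ≤ (148.1 * t) * (9020500000000000000000000 * t ^ 8) := by
              apply mul_le_mul h2 h3 _ (by positivity)
              rw [hC0]
              positivity
          _ = 148.1 * 9020500000000000000000000 * t ^ 9 := by ring
          _ ≤ _ := by linarith
      exact_mod_cast h4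
  · have h3 : (3 * (m : ℝ) + C0) ≤ 2255200000000000000000000 * t ^ 8 := by
      rw [hC0]
      linarith
    rcases le_or_gt t 100 with ht | ht
    · refine ⟨2, by norm_num, ?_, ?_⟩
      · have h2 : (2 * (n : ℝ)) ≤ 2 ^ 200 := by
          have h4 : t ^ 14 ≤ 100 ^ 14 := pow_le_pow_left₀ ht0.le ht 14
          rw [htn]
          calc 2 * (10 ^ 30 * t ^ 14) ≤ 2 * (10 ^ 30 * 100 ^ 14) := by linarith
            _ ≤ 2 ^ 200 := by norm_num
        exact_mod_cast h2
      · have h4 : ((3 : ℝ) + 2) * (3 * m + C0) ≤ 1501 * (u : ℝ) := by linarith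
        exact_mod_cast h4
    · refine ⟨⌈t⌉₊, ?_, ?_, ?_⟩
      · exact Nat.one_le_iff_ne_zero.2 (Nat.pos_iff_ne_zero.1 (Nat.ceil_pos.2 ht0))
      · have h2 : (2 * (n : ℝ)) ≤ (⌈t⌉₊ : ℝ) ^ 200 := by
          calc 2 * (n : ℝ) = 2 * 10 ^ 30 * t ^ 14 := by rw [htn]; ring
            _ ≤ t ^ 186 * t ^ 14 := by
              apply mul_le_mul_of_nonneg_right _ (by positivity)
              calc (2 : ℝ) * 10 ^ 30 ≤ 100 ^ 16 := by norm_num
                _ ≤ 100 ^ 186 := pow_le_pow_right₀ (by norm_num) (by norm_num)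
                _ ≤ t ^ 186 := pow_le_pow_left₀ (by norm_num) ht.le 186
            _ = t ^ 200 := by ring
            _ ≤ _ := pow_le_pow_left₀ ht0.le (Nat.le_ceil _) 200
        exact_mod_cast h2
      · have h2 : ((3 : ℝ) + ⌈t⌉₊) ≤ 2 * t := by
          have := Nat.ceil_lt_add_one ht0.le
          linarith
        have h4 : ((3 : ℝ) + ⌈t⌉₊) * (3 * m + C0) ≤ 1501 * (u : ℝ) := by
          calc _ ≤ (2 * t) * (2255200000000000000000000 * t ^ 8) := by
                apply mul_le_mul h2 h3 _ (by positivity)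
                rw [hC0]
                positivity
            _ = 2 * 2255200000000000000000000 * t ^ 9 := by ring
            _ ≤ _ := by linarith
        exact_mod_cast h4

end Pool.Agent.Helper4.SU
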